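import Pool.Agent.Helper22.FF.Abs
import Pool.Agent.Helper2.TWI.BC

set_option autoImplicit false

/-! Module I_BCS: base change of a section to `k' = k(S)`. -/

namespace Pool.Agent.Helper22.FF

open Pool.Agent.Helper14.BSC Polynomial Pool.Agent.Helper60.FF Pool.Agent.Helper18.FF3
open Pool.Agent.Helper22.TW (bcE bcE_coe bcE_symm_coe bcG bcG_apply bcG_coe bcD bcD_apply)

section

variable {k Ω : Type} [Field k] [Field Ω] [Algebra k Ω]

/-- an element of the stabilizer of `S` fixes `k(S)` -/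
theorem bcs_fix (S : Set (Acl k Ω)) (h : GG k Ω) (hh : h ∈ Stab S) (y : Ω)
    (hy : y ∈ IntermediateField.adjoin k ((fun a : Acl k Ω => (a : Ω)) '' S)) :
    ∃ hy' : y ∈ Acl k Ω, h ⟨y, hy'⟩ = ⟨y, hy'⟩ := by
  induction hy using IntermediateField.adjoin_induction with
  | mem y hy =>
    obtain ⟨a, ha, rfl⟩ := hy
    exact ⟨a.2, hh a ha⟩
  | algebraMap c => exact ⟨algebraMap_mem _ c, h.commutes c⟩
  | add y z _ _ hy hz =>
    obtain ⟨h1, h2⟩ := hy
    obtain ⟨h3, h4⟩ := hz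
    refine ⟨add_mem h1 h3, ?_⟩
    have e : (⟨y + z, add_mem h1 h3⟩ : Acl k Ω) = ⟨y, h1⟩ + ⟨z, h3⟩ := rfl
    rw [e, map_add, h2, h4]
  | inv y _ hy =>
    obtain ⟨h1, h2⟩ := hy
    refine ⟨inv_mem h1, ?_⟩
    have e : (⟨y⁻¹, inv_mem h1⟩ : Acl k Ω) = (⟨y, h1⟩ : Acl k Ω)⁻¹ := rfl
    rw [e, map_inv₀, h2]
  | mul y z _ _ hy hz =>
    obtain ⟨h1, h2⟩ := hy
    obtain ⟨h3, h4⟩ := hz
    refine ⟨mul_mem h1 h3, ?_⟩
    have e : (⟨y * z, mul_mem h1 h3⟩ : Acl k Ω) = ⟨y, h1⟩ * ⟨z, h3⟩ := rfl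
    rw [e, map_mul, h2, h4]

/-- the elements of `k(S)` are algebraic over `k` -/
theorem bcs_alg (S : Set (Acl k Ω)) (y : Ω)
    (hy : y ∈ IntermediateField.adjoin k ((fun a : Acl k Ω => (a : Ω)) '' S)) :
    IsAlgebraic k y := by
  have h1 : IntermediateField.adjoin k ((fun a : Acl k Ω => (a : Ω)) '' S) ≤ Acl k Ω := by
    rw [IntermediateField.adjoin_le_iff]
    rintro _ ⟨a, -, rfl⟩
    exact a.2
  have h2 := h1 hy
  rwa [mem_algebraicClosure_iff] at h2

variable {k' : Type} [Field k'] [Algebra k' Ω] (j : k →+* k')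
  (hj : ∀ c, algebraMap k' Ω (j c) = algebraMap k Ω c)
  (halg : ∀ c : k', IsAlgebraic k (algebraMap k' Ω c))

/-- an automorphism of `Acl k Ω` which fixes `k'` comes from `GG k' Ω` -/
theorem bcs_lift (h : GG k Ω)
    (hfix : ∀ c : k', h (bcE j hj halg (algebraMap k' (Acl k' Ω) c)) =
      bcE j hj halg (algebraMap k' (Acl k' Ω) c)) :
    ∃ g : GG k' Ω, bcG j hj halg g = h := by
  refine ⟨AlgEquiv.ofRingEquiv
    (f := ((bcE j hj halg).trans (h : Acl k Ω ≃+* Acl k Ω)).trans (bcE j hj halg).symm) ?_, ?_⟩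
  · intro c
    simp only [RingEquiv.trans_apply]
    have h1 : (h : Acl k Ω ≃+* Acl k Ω) (bcE j hj halg (algebraMap k' (Acl k' Ω) c)) =
        bcE j hj halg (algebraMap k' (Acl k' Ω) c) := hfix c
    rw [h1, RingEquiv.symm_apply_apply]
  · ext x
    rfl

end

theorem st_BCS : ST_BCS := by
  intro k Ω _ _ _ _ _ D S k' hk'
  have hj : ∀ c, algebraMap k' Ω (algebraMap k k' c) = algebraMap k Ω c := fun c => rfl
  have halg : ∀ c : k', IsAlgebraic k (algebraMap k' Ω c) := by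
    intro c
    exact bcs_alg S _ (hk'.le c.2)
  refine ⟨bcD (algebraMap k k') hj halg D, ?_⟩
  intro x
  rw [mem_NN, mem_NN]
  constructor
  · intro hx h hh
    obtain ⟨g, hg⟩ := bcs_lift (algebraMap k k') hj halg h (by
      intro c
      have hc : (c : Ω) ∈ IntermediateField.adjoin k ((fun a : Acl k Ω => (a : Ω)) '' S) := hk'.le c.2
      obtain ⟨h1, h2⟩ := bcs_fix S h hh (c : Ω) hc
      exact h2)
    have h3 := hx g (by
      intro a ha
      exact absurd ha (Set.notMem_empty a))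
    rw [bcD_apply, hg] at h3
    exact h3
  · intro hx g _
    rw [bcD_apply]
    apply hx
    intro a ha
    have hak : (a : Ω) ∈ k' := by
      rw [hk']
      exact IntermediateField.subset_adjoin _ _ ⟨a, ha, rfl⟩
    have h2 : (bcE (algebraMap k k') hj halg).symm a = algebraMap k' (Acl k' Ω) ⟨(a : Ω), hak⟩ :=
      Subtype.ext rfl
    rw [bcG_apply, h2, g.commutes, ← h2, RingEquiv.apply_symm_apply]

end Pool.Agent.Helper22.FF
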