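import Pool.Agent.Helper22.FF.Sect

set_option autoImplicit false

/-! Module I_KU: Kummer classes over `k(S)`. -/

namespace Pool.Agent.Helper22.FF

open Pool.Agent.Helper14.BSC Polynomial Pool.Agent.Helper60.FF Pool.Agent.Helper18.FF3

section

variable {F k Ω : Type} [Field F] [Field k] [Field Ω] [Algebra F Ω] [Algebra k Ω]
  [Algebra (RatFunc F) k]

/-- elements algebraic over `F` are algebraic over `k` -/
theorem ku_alg (hFU : FU F k Ω) (s : Acl F Ω) : (s : Ω) ∈ Acl k Ω := by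
  have h1 : IsAlgebraic F (s : Ω) := mem_algebraicClosure_iff.1 s.2
  let _ : Algebra F k := ((algebraMap (RatFunc F) k).comp (RatFunc.C : F →+* RatFunc F)).toAlgebra
  have _ : IsScalarTower F k Ω := IsScalarTower.of_algebraMap_eq (fun a => hFU.com a)
  rw [mem_algebraicClosure_iff]
  exact h1.tower_top k

theorem ku_image (hFU : FU F k Ω) (S : Set (Acl F Ω)) :
    (fun a : Acl k Ω => (a : Ω)) '' (upS k S) = (fun a : Acl F Ω => (a : Ω)) '' S := by
  ext x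
  constructor
  · rintro ⟨a, ⟨s, hs, hsa⟩, rfl⟩
    exact ⟨s, hs, hsa⟩
  · rintro ⟨s, hs, rfl⟩
    exact ⟨⟨(s : Ω), ku_alg hFU s⟩, ⟨s, hs, rfl⟩, rfl⟩

theorem ku_kS_alg (hFU : FU F k Ω) (S : Set (Acl F Ω)) (e : Ω) (he : e ∈ kS k S) : e ∈ Acl k Ω := by
  have h1 : kS k S ≤ Acl k Ω := by
    unfold kS
    rw [IntermediateField.adjoin_le_iff]
    rintro _ ⟨s, -, rfl⟩
    exact ku_alg hFU s
  exact h1 he

end

theorem st_KU (h1 : ST_FFS) (h2 : ST_KUM) (h3 : ST_ROOT) : ST_KU := by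
  intro F k Ω _ _ _ _ _ _ _ _ _ _ hFU D S
  have key : ∀ x : Acl k Ω, x ∈ FF (upS k S) ↔ (x : Ω) ∈ kS k S := by
    intro x
    rw [h1 k Ω (upS k S) x, ku_image hFU S]
    rfl
  refine ⟨?_, ?_, ?_⟩
  · intro e he
    have h4 : (⟨e, ku_kS_alg hFU S e he⟩ : Acl k Ω) ∈ FF (upS k S) := (key _).2 he
    exact (coe_mem_NN (D := D)).2 h4
  · intro x hx hx0 m hm
    obtain ⟨c, hc0, y, hy0, hxy⟩ := h2 k Ω D (upS k S) m hm ⟨x, hx⟩ (by
      intro h
      exact hx0 (congrArg Subtype.val h))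
    refine ⟨((c : Acl k Ω) : Ω), (y : Ω), (key _).1 c.2, ?_, y.2, ?_, congrArg Subtype.val hxy⟩
    · intro h
      apply hc0
      apply Subtype.ext
      apply Subtype.ext
      exact h
    · intro h
      apply hy0
      apply Subtype.ext
      exact h
  · intro y hy m hm hym
    have h4 : (⟨y ^ m, ku_kS_alg hFU S _ hym⟩ : Acl k Ω) ∈ FF (upS k S) := (key _).2 hym
    obtain ⟨d, hd⟩ := h3 k Ω D (upS k S) m hm ⟨y, hy⟩ ⟨_, h4⟩ (Subtype.ext rfl)
    have h5 : y = ((d : Acl k Ω) : Ω) := congrArg Subtype.val hd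
    rw [h5]
    exact (key _).1 d.2

end Pool.Agent.Helper22.FF
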